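import Pool.Agent.helper43.DHB.SpecB

/-! # d2:bMRG (MP_5823cb_al): marginals of the uniform measure (helper46) -/

set_option autoImplicit false

open Filter Topology MeasureTheory
open scoped commutatorElement

namespace Pool.Agent.helper90.DH

open Pool.Agent.helper64.D2

theorem bMRG : bMRG_stmt := by
  intro J J₀ κ _ _ _ _ _ _ e A he
  classical
  let e1 : J₀ ≃ {j // j ∈ Set.range e} := Equiv.ofInjective e he
  let E : (J → κ) ≃ (J₀ → κ) × ({j // ¬ (j ∈ Set.range e)} → κ) :=
    (Equiv.piEquivPiSubtypeProd (fun j => j ∈ Set.range e) (fun _ => κ)).trans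
      (Equiv.prodCongr (Equiv.arrowCongr e1.symm (Equiv.refl κ)) (Equiv.refl _))
  have hE : ∀ ω : J → κ, (E ω).1 = fun j => ω (e j) := by
    intro ω
    rfl
  have hset : {ω : J → κ | (fun j => ω (e j)) ∈ A} = E.symm '' (A ×ˢ (Set.univ : Set ({j // ¬ (j ∈ Set.range e)} → κ))) := by
    ext ω
    rw [Equiv.image_symm_eq_preimage, Set.mem_preimage, Set.mem_prod, hE]
    simp
  have hcard : Fintype.card (J → κ) = Fintype.card (J₀ → κ) * Fintype.card ({j // ¬ (j ∈ Set.range e)} → κ) := by
    rw [Fintype.card_congr E, Fintype.card_prod]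
  have hpos : (0 : ℝ) < Fintype.card ({j // ¬ (j ∈ Set.range e)} → κ) := by
    exact_mod_cast Fintype.card_pos
  unfold bpr
  rw [hset, Set.ncard_image_of_injective _ E.symm.injective, Set.ncard_prod, Set.ncard_univ, Nat.card_eq_fintype_card, hcard]
  push_cast
  rw [mul_div_mul_right _ _ hpos.ne']

end Pool.Agent.helper90.DH
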